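import Mathlib
import Pool.Agent.Results.MP_0fb7f5_co.BooleanIntervals

set_option autoImplicit false

namespace Pool.Agent.H170Z.Bruhat

open Equiv Finset
open Pool.Agent.Results.MP_0fb7f5_co.BooleanIntervals

variable {n : ℕ}

lemma le_swap_iff {x w : Perm (Fin n)} (h : le x w) {i j : Fin n} (hij : i < j) (hx : x i < x j) :
    le (x * swap i j) w ↔ ∀ a b : ℕ, (i : ℕ) < a → a ≤ (j : ℕ) → (x i : ℕ) < b → b ≤ (x j : ℕ) →
      rk x a b < rk w a b := by
  constructor
  · intro h1 a b c1 c2 c3 c4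
    have := h1 a b
    rw [rk_swap x hij hx, if_pos ⟨c1, c2, c3, c4⟩] at this
    omega
  · intro h1 a b
    rw [rk_swap x hij hx]
    split_ifs with hc
    · have := h1 a b hc.1 hc.2.1 hc.2.2.1 hc.2.2.2
      omega
    · exact h a b

lemma rk_succ (x : Perm (Fin n)) (i : Fin n) (b : ℕ) :
    rk x ((i : ℕ) + 1) b = rk x (i : ℕ) b + if b ≤ (x i : ℕ) then 1 else 0 := by
  have hone : (if b ≤ (x i : ℕ) then 1 else 0 : ℕ) =
      ∑ k : Fin n, if k = i then (if b ≤ (x i : ℕ) then 1 else 0) else 0 := by simp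
  rw [hone, rk_eq_sum, rk_eq_sum, ← Finset.sum_add_distrib]
  apply Finset.sum_congr rfl
  intro k _
  unfold ind
  by_cases hk : k = i
  · subst hk
    simp
  · have : (k : ℕ) ≠ (i : ℕ) := fun h => hk (Fin.ext h)
    simp only [hk, if_false, add_zero]
    split_ifs <;> omega

/-- the termwise comparison behind the semicontinuity of the degree -/
lemma semi_key (x v : Perm (Fin n)) {i j : Fin n} (hij : i < j) (hx : x i < x j)
    (hin : inner x i j = 0) (hy : le (x * swap i j) v) (p : Fin n × Fin n) :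
      (if p.1 = p.2 then 0 else gg v (x * swap i j) p.1 p.2) +
        (if swap i j p.1 = swap i j p.2 then 0 else
          gg v (x * swap i j) (swap i j p.1) (swap i j p.2)) ≤
      (if p.1 = p.2 then 0 else gg v x p.1 p.2) +
        (if swap i j p.1 = swap i j p.2 then 0 else gg v x (swap i j p.1) (swap i j p.2)) := by
  have hij' : i ≠ j := ne_of_lt hij
  have hxv : le x v := le_trans' (le_swap x hij hx) hy
  have hyy : x * swap i j * swap i j = x := by rw [mul_assoc, swap_mul_self, mul_one]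
  obtain ⟨p, q⟩ := p
  simp only [EmbeddingLike.apply_eq_iff_eq]
  by_cases hpq : p = q
  · simp [hpq]
  simp only [hpq, if_false]
  have gxy : gg v x i j = 1 := by unfold gg; simp [hy]
  have gyx : gg v (x * swap i j) i j = 1 := by unfold gg; rw [hyy]; simp [hxv]
  by_cases hpi : p = i
  · subst hpi
    by_cases hqj : q = j
    · subst hqj
      simp only [swap_apply_left, swap_apply_right]
      rw [gg_comm v _ q p, gg_comm v x q p]
      omega
    · have hq : swap p j q = q := swap_apply_of_ne_of_ne (Ne.symm hpq) hqj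
      simp only [swap_apply_left, hq]
      exact gg_third x v hij hx hin (Ne.symm hpq) hqj hy
  · by_cases hpj : p = j
    · subst hpj
      by_cases hqi : q = i
      · subst hqi
        simp only [swap_apply_left, swap_apply_right]
        rw [gg_comm v _ p q, gg_comm v x p q]
        omega
      · have hq : swap i p q = q := swap_apply_of_ne_of_ne hqi (Ne.symm hpq)
        simp only [swap_apply_right, hq]
        have := gg_third x v hij hx hin hqi (Ne.symm hpq) hy
        omega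
    · have hp : swap i j p = p := swap_apply_of_ne_of_ne hpi hpj
      by_cases hqi : q = i
      · subst hqi
        simp only [swap_apply_left, hp]
        have := gg_third x v hij hx hin hpi hpj hy
        rw [gg_comm v _ p q, gg_comm v _ p j, gg_comm v x p q, gg_comm v x p j]
        exact this
      · by_cases hqj : q = j
        · subst hqj
          simp only [swap_apply_right, hp]
          have := gg_third x v hij hx hin hpi hpj hy
          rw [gg_comm v _ p q, gg_comm v _ p i, gg_comm v x p q, gg_comm v x p i]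
          omega
        · have hq : swap i j q = q := swap_apply_of_ne_of_ne hqi hqj
          rw [hp, hq]
          have := gg_disjoint x v hij hx hpi hpj hqi hqj
          omega

/-- equality of degrees forces equality at every third position -/
lemma semi_eq (x v : Perm (Fin n)) {i j q : Fin n} (hij : i < j) (hx : x i < x j)
    (hin : inner x i j = 0) (hy : le (x * swap i j) v) (hqi : q ≠ i) (hqj : q ≠ j)
    (heq : FF x v ≤ FF (x * swap i j) v) :
    gg v x i q + gg v x j q ≤ gg v (x * swap i j) i q + gg v (x * swap i j) j q := by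
  have hinv : ∀ z : Perm (Fin n), ∑ p : Fin n × Fin n,
      (if swap i j p.1 = swap i j p.2 then 0 else gg v z (swap i j p.1) (swap i j p.2)) = FF z v := by
    intro z
    unfold FF
    exact Equiv.sum_comp (Equiv.prodCongr (swap i j) (swap i j))
      (fun p : Fin n × Fin n => if p.1 = p.2 then 0 else gg v z p.1 p.2)
  by_contra hcon
  have hlt := Finset.sum_lt_sum (s := (univ : Finset (Fin n × Fin n)))
    (fun p _ => semi_key x v hij hx hin hy p) ⟨(i, q), mem_univ _, by
      have hq : swap i j q = q := swap_apply_of_ne_of_ne hqi hqj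
      simp only [swap_apply_left, hq, hqi.symm, hqj.symm, if_false]
      omega⟩
  rw [Finset.sum_add_distrib, Finset.sum_add_distrib, hinv, hinv] at hlt
  unfold FF at hlt heq
  omega

/-- `x` is a smooth point below `w` -/
def Sm (x w : Perm (Fin n)) : Prop := (up x w).card + inv x = inv w

lemma Sm.mono {u x w : Perm (Fin n)} (h : Sm u w) (hux : le u x) (hxw : le x w) : Sm x w := by
  unfold Sm at h ⊢
  have h1 := up_mono hux hxw
  have h2 := deodhar hxw
  omega

lemma inner_succ (x : Perm (Fin n)) {i j : Fin n} (hj : (j : ℕ) = (i : ℕ) + 1) :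
    inner x i j = 0 := by
  unfold Results.MP_0fb7f5_co.BooleanIntervals.inner
  rw [Finset.card_eq_zero, Finset.filter_eq_empty_iff]
  rintro k - ⟨h1, h2, -, -⟩
  have h3 : (i : ℕ) < (k : ℕ) := h1
  have h4 : (k : ℕ) < (j : ℕ) := h2
  omega

/-- the local consequence of smoothness -/
lemma s_one {x w : Perm (Fin n)} (hxw : le x w) (hs : Sm x w) {i j q : Fin n}
    (hj : (j : ℕ) = (i : ℕ) + 1) (hq : j < q) (h1 : x i < x j) (h2 : x j < x q)
    (hstrip : ∀ b : ℕ, (x i : ℕ) < b → b ≤ (x j : ℕ) → rk x (j : ℕ) b < rk w (j : ℕ) b)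
    (hrect : ∀ a b : ℕ, (j : ℕ) < a → a ≤ (q : ℕ) → (x j : ℕ) < b → b ≤ (x q : ℕ) →
      rk x a b < rk w a b)
    {b' : ℕ} (hb1 : (x j : ℕ) < b') (hb2 : b' ≤ (x q : ℕ))
    (hz : ¬ rk x (j : ℕ) b' < rk w (j : ℕ) b') :
    ∀ a b : ℕ, (j : ℕ) < a → a ≤ (q : ℕ) → (x i : ℕ) < b → b ≤ (x q : ℕ) →
      rk x a b < rk w a b := by
  have hij : i < j := by
    show (i : ℕ) < (j : ℕ)
    omega
  have hiq : i < q := lt_trans hij hq
  have hy : le (x * swap i j) w := by
    rw [le_swap_iff hxw hij h1]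
    intro a b c1 c2 c3 c4
    have : a = (j : ℕ) := by omega
    subst this
    exact hstrip b c3 c4
  have hz2 : le (x * swap j q) w := (le_swap_iff hxw hq h2).2 hrect
  have hsy : Sm (x * swap i j) w := hs.mono (le_swap x hij h1) hy
  have heq : FF x w ≤ FF (x * swap i j) w := by
    rw [FF_eq hxw, FF_eq hy]
    unfold Sm at hs hsy
    omega
  have hk := semi_eq x w hij h1 (inner_succ x hj) hy (ne_of_gt hiq) (ne_of_gt hq) heq
  have g1 : gg w x j q = 1 := by unfold gg; simp [hz2]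
  have yi : (x * swap i j) i = x j := by simp
  have yj : (x * swap i j) j = x i := by simp
  have yq : (x * swap i j) q = x q := by
    simp [swap_apply_of_ne_of_ne (ne_of_gt hiq) (ne_of_gt hq)]
  have hyx : ∀ a b, rk x a b ≤ rk (x * swap i j) a b := le_swap x hij h1
  have g2 : ¬ le (x * swap i j * swap i q) w := by
    intro hc
    rw [le_swap_iff hy hiq (by rw [yi, yq]; exact h2)] at hc
    have hq' : (j : ℕ) < (q : ℕ) := hq
    have := hc (j : ℕ) b' (by omega) (by omega) (by rw [yi]; exact hb1) (by rw [yq]; exact hb2)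
    have := hyx (j : ℕ) b'
    omega
  have g3 : le (x * swap i j * swap j q) w := by
    by_contra hc
    unfold gg at hk g1
    simp only [g2, hc, if_false] at hk
    omega
  rw [le_swap_iff hy hq (by rw [yj, yq]; exact lt_trans h1 h2)] at g3
  intro a b c1 c2 c3 c4
  have := g3 a b c1 c2 (by rw [yj]; exact c3) (by rw [yq]; exact c4)
  have := hyx a b
  omega

/-- the ascent at `(i, j)` is obstructed from the right -/
def RBad (u w : Perm (Fin n)) (i j : Fin n) : Prop :=
  ∃ q : Fin n, j < q ∧ u j < u q ∧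
    (∀ a b : ℕ, (j : ℕ) < a → a ≤ (q : ℕ) → (u i : ℕ) < b → b ≤ (u q : ℕ) →
      rk u a b < rk w a b) ∧
    ∃ b : ℕ, (u j : ℕ) < b ∧ b ≤ (u q : ℕ) ∧ ¬ rk u (j : ℕ) b < rk w (j : ℕ) b

/-- the ascent at `(i, j)` is obstructed from the left -/
def LBad (u w : Perm (Fin n)) (i j : Fin n) : Prop :=
  ∃ b : ℕ, b ≤ (u i : ℕ) ∧ ¬ rk u (j : ℕ) b < rk w (j : ℕ) b ∧ ∃ p : Fin n, p < i ∧ (u p : ℕ) < b

lemma bad_of_ascent {u w : Perm (Fin n)} (huw : le u w) (hs : Sm u w) {i j : Fin n}
    (hj : (j : ℕ) = (i : ℕ) + 1) (hu : u i < u j) (hw : w i < w j) (hle : le (u * swap i j) w) :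
    RBad u w i j ∨ LBad u w i j := by
  classical
  have hij : i < j := by
    show (i : ℕ) < (j : ℕ)
    omega
  have hwv : le w (w * swap i j) := le_swap w hij hw
  have huv : le u (w * swap i j) := le_trans' huw hwv
  have h1 := deodhar huv
  have h2 := inv_lt_swap w hij hw
  have h3 : (up u w).card < (up u (w * swap i j)).card := by
    unfold Sm at hs
    omega
  obtain ⟨y, hy1, hy2⟩ := Finset.exists_mem_notMem_of_card_lt_card h3
  rw [mem_up] at hy1 hy2
  obtain ⟨⟨P, Q, hPQ, hu2, rfl⟩, hyv⟩ := hy1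
  have hnw : ¬ le (u * swap P Q) w := fun hc => hy2 ⟨⟨P, Q, hPQ, hu2, rfl⟩, hc⟩
  rw [le_swap_iff huv hPQ hu2] at hyv
  rw [le_swap_iff huw hPQ hu2] at hnw
  rw [le_swap_iff huw hij hu] at hle
  push Not at hnw
  obtain ⟨a, b, c1, c2, c3, c4, c5⟩ := hnw
  have hoth : ∀ a b : ℕ, (P : ℕ) < a → a ≤ (Q : ℕ) → (u P : ℕ) < b → b ≤ (u Q : ℕ) →
      a ≠ (j : ℕ) → rk u a b < rk w a b := by
    intro a b c1 c2 c3 c4 c5
    have := hyv a b c1 c2 c3 c4
    rw [rk_swap w hij hw, if_neg (by omega)] at this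
    omega
  have ha : a = (j : ℕ) := by
    by_contra hc
    have := hoth a b c1 c2 c3 c4 hc
    omega
  subst ha
  have hu' : (u i : ℕ) < (u j : ℕ) := hu
  by_cases hb1 : b ≤ (u i : ℕ)
  · right
    refine ⟨b, hb1, by omega, P, ?_, c3⟩
    have hPi : P ≠ i := by
      rintro rfl
      omega
    have : (P : ℕ) ≠ (i : ℕ) := fun h => hPi (Fin.ext h)
    show (P : ℕ) < (i : ℕ)
    omega
  · by_cases hb2 : b ≤ (u j : ℕ)
    · have := hle (j : ℕ) b (by omega) le_rfl (by omega) hb2
      omega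
    · left
      have hQj : Q ≠ j := by
        rintro rfl
        omega
      have hQj' : (Q : ℕ) ≠ (j : ℕ) := fun h => hQj (Fin.ext h)
      have hPi : P = i := by
        by_contra hc
        have hc' : (P : ℕ) ≠ (i : ℕ) := fun h => hc (Fin.ext h)
        have e1 := hoth (i : ℕ) b (by omega) (by omega) c3 c4 (by omega)
        have e2 := rk_succ u i b
        have e3 := rk_succ w i b
        rw [← hj] at e2 e3
        rw [if_neg hb1] at e2
        omega
      subst hPi
      refine ⟨Q, ?_, ?_, ?_, b, by omega, c4, by omega⟩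
      · show (j : ℕ) < (Q : ℕ)
        omega
      · show (u j : ℕ) < (u Q : ℕ)
        omega
      · intro a b d1 d2 d3 d4
        exact hoth a b (by omega) d2 d3 d4 (by omega)

/-- the last position before `q` (from `p` on) with a value below `c` -/
lemma last_below (u : Perm (Fin n)) {p q : Fin n} (hpq : p < q) {c : ℕ} (hp : (u p : ℕ) < c)
    (hq : c ≤ (u q : ℕ)) :
    ∃ m m' : Fin n, (m' : ℕ) = (m : ℕ) + 1 ∧ p ≤ m ∧ m < q ∧ (u m : ℕ) < c ∧
      ∀ t : Fin n, m < t → t ≤ q → c ≤ (u t : ℕ) := by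
  classical
  have hS : (univ.filter fun t : Fin n => p ≤ t ∧ t < q ∧ (u t : ℕ) < c).Nonempty :=
    ⟨p, by simp [hpq, hp]⟩
  obtain ⟨m, hm, hmax⟩ := Finset.exists_max_image _ (fun t : Fin n => t) hS
  simp only [mem_filter, mem_univ, true_and] at hm hmax
  have hmq : (m : ℕ) < (q : ℕ) := hm.2.1
  refine ⟨m, ⟨(m : ℕ) + 1, by omega⟩, rfl, hm.1, hm.2.1, hm.2.2, ?_⟩
  intro t h1 h2
  rcases eq_or_lt_of_le h2 with h3 | h3
  · rw [h3]; exact hq
  · by_contra hc
    exact absurd (hmax t ⟨le_trans hm.1 (le_of_lt h1), h3, not_le.1 hc⟩) (not_le.2 h1)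

lemma chain {u w : Perm (Fin n)} (hs : Sm u w) {k : Fin n} {b0 : ℕ}
    (hz : ¬ rk u ((k : ℕ) + 1) b0 < rk w ((k : ℕ) + 1) b0)
    (hall : ∀ i j : Fin n, (j : ℕ) = (i : ℕ) + 1 → i < k → u i < u j →
      RBad u w i j ∧ ∀ b : ℕ, (u i : ℕ) < b → b ≤ (u j : ℕ) → rk u (j : ℕ) b < rk w (j : ℕ) b) :
    ∀ (N : ℕ) (m m1 q : Fin n) (v : Perm (Fin n)), (k : ℕ) - (m : ℕ) ≤ N →
      (m1 : ℕ) = (m : ℕ) + 1 → m < k → (∀ t : Fin n, m < t → t ≤ k → b0 ≤ (u t : ℕ)) →
      le u v → le v w → (∀ t : Fin n, m < t → v t = u t) → (v m : ℕ) < b0 →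
      (∀ a b : ℕ, (m : ℕ) < a → rk v a b = rk u a b) →
      m1 < q → u m1 < u q →
      (∀ b : ℕ, (v m : ℕ) < b → b ≤ (u m1 : ℕ) → rk u (m1 : ℕ) b < rk w (m1 : ℕ) b) →
      (∀ a b : ℕ, (m1 : ℕ) < a → a ≤ (q : ℕ) → (v m : ℕ) < b → b ≤ (u q : ℕ) →
        rk u a b < rk w a b) → False := by
  intro N
  induction N with
  | zero =>
    intro m m1 q v hN _ hmk
    have : (m : ℕ) < (k : ℕ) := hmk
    omega
  | succ N ih =>
    intro m m1 q v hN hm1 hmk hbig huv hvw hagree hvm hrk hq huq hstrip hrect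
    have hmk' : (m : ℕ) < (k : ℕ) := hmk
    have hq' : (m1 : ℕ) < (q : ℕ) := hq
    have huq' : (u m1 : ℕ) < (u q : ℕ) := huq
    have hmm1 : m < m1 := by
      show (m : ℕ) < (m1 : ℕ)
      omega
    have hb1 : b0 ≤ (u m1 : ℕ) := hbig m1 hmm1 (by
      show (m1 : ℕ) ≤ (k : ℕ)
      omega)
    by_cases hqk : (k : ℕ) < (q : ℕ)
    · exact hz (hrect _ _ (by omega) (by omega) hvm (by omega))
    obtain ⟨m', m1', hm1', e1, e2, e3, e4⟩ := last_below u hq huq' le_rfl
    have e1' : (m1 : ℕ) ≤ (m' : ℕ) := e1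
    have e2' : (m' : ℕ) < (q : ℕ) := e2
    have hm'k : m' < k := by
      show (m' : ℕ) < (k : ℕ)
      omega
    have hmm1' : m' < m1' := by
      show (m' : ℕ) < (m1' : ℕ)
      omega
    have e5 : (u q : ℕ) ≤ (u m1' : ℕ) := e4 m1' hmm1' (by
      show (m1' : ℕ) ≤ (q : ℕ)
      omega)
    have hasc : u m' < u m1' := by
      show (u m' : ℕ) < (u m1' : ℕ)
      omega
    obtain ⟨⟨q', f1, f2, f3, b', f4, f5, f6⟩, hstrip'⟩ := hall m' m1' hm1' hm'k hasc
    have hb2 : b0 ≤ (u m' : ℕ) := hbig m' (lt_of_lt_of_le hmm1 e1) (le_of_lt hm'k)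
    -- first move
    have hvm1 : v m1 = u m1 := hagree m1 hmm1
    have hv1 : v m < v m1 := by
      show (v m : ℕ) < (v m1 : ℕ)
      rw [hvm1]
      omega
    have hv1w : le (v * swap m m1) w := by
      rw [le_swap_iff hvw hmm1 hv1]
      intro a b c1 c2 c3 c4
      have : a = (m1 : ℕ) := by omega
      subst this
      rw [hrk _ _ c1]
      exact hstrip b c3 (by rw [← hvm1]; exact c4)
    have hrk1 : ∀ a b : ℕ, (m1 : ℕ) < a → rk (v * swap m m1) a b = rk u a b := by
      intro a b c1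
      rw [rk_swap v hmm1 hv1, if_neg (by omega), add_zero, hrk _ _ (by omega)]
    have hag1 : ∀ t : Fin n, m1 < t → (v * swap m m1) t = u t := by
      intro t ht
      have h1 : t ≠ m := ne_of_gt (lt_trans hmm1 ht)
      have h2 : t ≠ m1 := ne_of_gt ht
      rw [Perm.mul_apply, swap_apply_of_ne_of_ne h1 h2]
      exact hagree t (lt_trans hmm1 ht)
    have hval1 : (v * swap m m1) m1 = v m := by simp
    -- second move
    obtain ⟨v', g1, g2, g3, g4, g5⟩ : ∃ v' : Perm (Fin n), le u v' ∧ le v' w ∧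
        (∀ t : Fin n, m' < t → v' t = u t) ∧ v' m' = v m ∧
        (∀ a b : ℕ, (m' : ℕ) < a → rk v' a b = rk u a b) := by
      have hu1 : le u (v * swap m m1) := le_trans' huv (le_swap v hmm1 hv1)
      rcases eq_or_lt_of_le e1 with h | h
      · subst h
        exact ⟨v * swap m m1, hu1, hv1w, hag1, hval1, hrk1⟩
      · have h' : (m1 : ℕ) < (m' : ℕ) := h
        have hv2 : (v * swap m m1) m1 < (v * swap m m1) m' := by
          rw [hval1, hag1 m' h]
          show (v m : ℕ) < (u m' : ℕ)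
          omega
        refine ⟨v * swap m m1 * swap m1 m', le_trans' hu1 (le_swap _ h hv2), ?_, ?_, ?_, ?_⟩
        · rw [le_swap_iff hv1w h hv2]
          intro a b c1 c2 c3 c4
          rw [hval1] at c3
          rw [hag1 m' h] at c4
          rw [hrk1 _ _ c1]
          exact hrect a b c1 (by omega) c3 (by omega)
        · intro t ht
          have h1 : t ≠ m1 := ne_of_gt (lt_trans h ht)
          have h2 : t ≠ m' := ne_of_gt ht
          rw [Perm.mul_apply, swap_apply_of_ne_of_ne h1 h2]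
          exact hag1 t (lt_trans h ht)
        · rw [Perm.mul_apply, swap_apply_right, hval1]
        · intro a b c1
          rw [rk_swap _ h hv2, if_neg (by omega), add_zero, hrk1 _ _ (by omega)]
    have hstrip2 : ∀ b : ℕ, (v' m' : ℕ) < b → b ≤ (u m1' : ℕ) →
        rk u (m1' : ℕ) b < rk w (m1' : ℕ) b := by
      intro b c1 c2
      rw [g4] at c1
      by_cases hb : b ≤ (u q : ℕ)
      · exact hrect _ _ (by omega) (by omega) c1 hb
      · exact hstrip' b (by omega) c2
    have f1' : (m1' : ℕ) < (q' : ℕ) := f1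
    have k1 : v' m1' = u m1' := g3 m1' hmm1'
    have k2 : v' q' = u q' := g3 q' (lt_trans hmm1' f1)
    have hasc' : (u m' : ℕ) < (u m1' : ℕ) := hasc
    have hS := s_one g2 (hs.mono g1 g2) hm1' f1 (b' := b')
      (by
        show (v' m' : ℕ) < (v' m1' : ℕ)
        rw [g4, k1]
        omega)
      (by rw [k1, k2]; exact f2)
      (by
        intro b c1 c2
        rw [g5 _ _ (by omega)]
        exact hstrip2 b c1 (by rw [← k1]; exact c2))
      (by
        intro a b c1 c2 c3 c4
        rw [k1] at c3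
        rw [k2] at c4
        rw [g5 _ _ (by omega)]
        exact f3 a b c1 c2 (by omega) c4)
      (by rw [k1]; exact f4) (by rw [k2]; exact f5)
      (by rw [g5 _ _ (by omega)]; exact f6)
    refine ih m' m1' q' v' (by omega) hm1' hm'k ?_ g1 g2 g3 (by rw [g4]; exact hvm) g5 f1 f2
      hstrip2 ?_
    · intro t h1 h2
      exact hbig t (lt_trans (lt_of_lt_of_le hmm1 e1) h1) h2
    · intro a b c1 c2 c3 c4
      have := hS a b c1 c2 c3 (by rw [k2]; exact c4)
      rwa [g5 _ _ (by omega)] at this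

/-- the main statement, for right multiplication -/
theorem main_right {u w : Perm (Fin n)} (huw : le u w) (hne : u ≠ w) (hs : Sm u w) :
    ∃ i j : Fin n, (j : ℕ) = (i : ℕ) + 1 ∧ u i < u j ∧ (¬ le (u * swap i j) w ∨ w j < w i) := by
  classical
  by_contra hcon
  push Not at hcon
  have hlt : ∀ i j : Fin n, (j : ℕ) = (i : ℕ) + 1 → i < j := by
    intro i j h
    show (i : ℕ) < (j : ℕ)
    omega
  have hbad : ∀ i j : Fin n, (j : ℕ) = (i : ℕ) + 1 → u i < u j → RBad u w i j ∨ LBad u w i j := by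
    intro i j hj hu
    obtain ⟨h1, h2⟩ := hcon i j hj hu
    have h3 : w i < w j :=
      lt_of_le_of_ne h2 (fun e => (ne_of_lt (hlt i j hj)) (w.injective e))
    exact bad_of_ascent huw hs hj hu h3 h1
  have hstrip : ∀ i j : Fin n, (j : ℕ) = (i : ℕ) + 1 → u i < u j →
      ∀ b : ℕ, (u i : ℕ) < b → b ≤ (u j : ℕ) → rk u (j : ℕ) b < rk w (j : ℕ) b := by
    intro i j hj hu b c1 c2
    have h1 := (hcon i j hj hu).1
    rw [le_swap_iff huw (hlt i j hj) hu] at h1
    exact h1 _ _ (by omega) le_rfl c1 c2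
  by_cases hL : (univ.filter fun i : Fin n =>
      ∃ j : Fin n, (j : ℕ) = (i : ℕ) + 1 ∧ u i < u j ∧ LBad u w i j).Nonempty
  · obtain ⟨k, hk, hmin⟩ := Finset.exists_min_image _ (fun t : Fin n => t) hL
    simp only [mem_filter, mem_univ, true_and] at hk hmin
    obtain ⟨k1, hk1, -, b0, hb0, hz, p, hp1, hp2⟩ := hk
    have hall : ∀ i j : Fin n, (j : ℕ) = (i : ℕ) + 1 → i < k → u i < u j →
        RBad u w i j ∧
          ∀ b : ℕ, (u i : ℕ) < b → b ≤ (u j : ℕ) → rk u (j : ℕ) b < rk w (j : ℕ) b := by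
      intro i j hj hik hu
      refine ⟨?_, hstrip i j hj hu⟩
      rcases hbad i j hj hu with h | h
      · exact h
      · exact absurd (hmin i ⟨j, hj, hu, h⟩) (not_le.2 hik)
    obtain ⟨m, m1, hm1, -, e2, e3, e4⟩ := last_below u hp1 hp2 hb0
    have e2' : (m : ℕ) < (k : ℕ) := e2
    have e5 : b0 ≤ (u m1 : ℕ) := e4 m1 (hlt m m1 hm1) (by
      show (m1 : ℕ) ≤ (k : ℕ)
      omega)
    have hasc : u m < u m1 := by
      show (u m : ℕ) < (u m1 : ℕ)
      omega
    obtain ⟨⟨q, f1, f2, f3, -⟩, hst⟩ := hall m m1 hm1 e2 hasc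
    rw [hk1] at hz
    exact chain hs hz hall _ m m1 q u le_rfl hm1 e2 e4 (le_refl' u) huw (fun _ _ => rfl) e3
      (fun _ _ _ => rfl) f1 f2 hst f3
  · have hR : ∀ i j : Fin n, (j : ℕ) = (i : ℕ) + 1 → u i < u j → RBad u w i j := by
      intro i j hj hu
      rcases hbad i j hj hu with h | h
      · exact h
      · exact absurd ⟨i, by simp only [mem_filter, mem_univ, true_and]; exact ⟨j, hj, hu, h⟩⟩ hL
    have hasc : ∀ p q : Fin n, p < q → u p < u q →
        ∃ m m' : Fin n, (m' : ℕ) = (m : ℕ) + 1 ∧ p ≤ m ∧ u m < u m' := by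
      intro p q hpq hu
      obtain ⟨m, m1, hm1, e1, e2, e3, e4⟩ := last_below u hpq (c := (u q : ℕ)) hu le_rfl
      have e2' : (m : ℕ) < (q : ℕ) := e2
      have e5 : (u q : ℕ) ≤ (u m1 : ℕ) := e4 m1 (hlt m m1 hm1) (by
        show (m1 : ℕ) ≤ (q : ℕ)
        omega)
      refine ⟨m, m1, hm1, e1, ?_⟩
      show (u m : ℕ) < (u m1 : ℕ)
      omega
    obtain ⟨y, ⟨⟨p, q, hpq, hu, -⟩, -⟩, -⟩ := exists_cov huw hne
    obtain ⟨m0, m0', h0, -, h1⟩ := hasc p q hpq hu
    have hA : (univ.filter fun i : Fin n =>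
        ∃ j : Fin n, (j : ℕ) = (i : ℕ) + 1 ∧ u i < u j).Nonempty :=
      ⟨m0, by simp only [mem_filter, mem_univ, true_and]; exact ⟨m0', h0, h1⟩⟩
    obtain ⟨k, hk, hmax⟩ := Finset.exists_max_image _ (fun t : Fin n => t) hA
    simp only [mem_filter, mem_univ, true_and] at hk hmax
    obtain ⟨k1, hk1, hk2⟩ := hk
    obtain ⟨q', f1, f2, -⟩ := hR k k1 hk1 hk2
    obtain ⟨m, m', g1, g2, g3⟩ := hasc k1 q' f1 f2
    have g4 := hmax m ⟨m', g1, g3⟩
    exact absurd (lt_of_lt_of_le (hlt k k1 hk1) g2) (not_lt.2 g4)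

end Pool.Agent.H170Z.Bruhat
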