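import Mathlib

set_option autoImplicit false

namespace Pool.Agent.H170Z.BruhatA

open Equiv Finset

variable {N : ℕ}

/-- The Coxeter length of a permutation: its number of inversions. -/
def len (w : Perm (Fin N)) : ℕ :=
  (univ.filter fun p : Fin N × Fin N => p.1 < p.2 ∧ w p.2 < w p.1).card

/-- The Bruhat order `u ≤ w`: there is a chain `u = x₀, x₁, ..., x_k = w` with `x_{i+1} = t * x_i`
for a transposition `t` and `len x_i < len x_{i+1}`. -/
def BLe (u w : Perm (Fin N)) : Prop :=
  Relation.ReflTransGen
    (fun x y : Perm (Fin N) => ∃ t : Perm (Fin N), t.IsSwap ∧ y = t * x ∧ len x < len y) u w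

/-- The strict Bruhat order `u < w`. -/
def BLt (u w : Perm (Fin N)) : Prop := BLe u w ∧ u ≠ w

open Classical in
/-- Smoothness of the interval `[u, w]` in type A: the number of transpositions `t` with
`t * u ≤ w` is the length of `w`. -/
def IsSmooth (u w : Perm (Fin N)) : Prop :=
  (univ.filter fun t : Perm (Fin N) => t.IsSwap ∧ BLe (t * u) w).card = len w

/-- The simple reflection `s_i = (i i+1)` of the symmetric group on `n + 1` letters. -/
def simple {n : ℕ} (i : Fin n) : Perm (Fin (n + 1)) := swap i.castSucc i.succ

end Pool.Agent.H170Z.BruhatA
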