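import Mathlib
import Pool.Agent.H170Z.Bruhat.Core
import Pool.Agent.H170Z.Bruhat.Defs

set_option autoImplicit false

namespace Pool.Agent.H170Z.Bruhat

open Equiv Finset
open Pool.Agent.Results.MP_0fb7f5_co.BooleanIntervals
open Pool.Agent.H170Z.BruhatA

variable {n : ℕ}

lemma len_eq (x : Perm (Fin n)) : len x = inv x⁻¹ := by
  unfold len inv
  apply Finset.card_bij (fun p _ => (x p.2, x p.1))
  · intro p hp
    simp only [mem_filter, mem_univ, true_and] at hp ⊢
    simpa using ⟨hp.2, hp.1⟩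
  · intro p _ q _ h
    simp only [Prod.mk.injEq, EmbeddingLike.apply_eq_iff_eq] at h
    exact Prod.ext h.2 h.1
  · intro p hp
    simp only [mem_filter, mem_univ, true_and] at hp
    refine ⟨(x⁻¹ p.2, x⁻¹ p.1), ?_, ?_⟩
    · simp only [mem_filter, mem_univ, true_and]
      refine ⟨hp.2, ?_⟩
      simpa using hp.1
    · simp

lemma step_iff (x y : Perm (Fin n)) :
    (∃ t : Perm (Fin n), t.IsSwap ∧ y = t * x ∧ len x < len y) ↔ edge x⁻¹ y⁻¹ := by
  rw [← bruhat_step_iff]
  constructor
  · rintro ⟨t, ⟨i, j, -, rfl⟩, rfl, h⟩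
    refine ⟨i, j, by simp, ?_⟩
    rwa [len_eq, len_eq] at h
  · rintro ⟨i, j, h1, h2⟩
    have hij : i ≠ j := by
      rintro rfl
      have h0 : x⁻¹ * swap i i = x⁻¹ := by ext k; simp
      rw [h1, h0] at h2
      omega
    refine ⟨swap i j, ⟨i, j, hij, rfl⟩, ?_, by rwa [len_eq, len_eq]⟩
    have := congrArg (fun z => z⁻¹) h1
    simpa using this

lemma ble_iff (u w : Perm (Fin n)) : BLe u w ↔ le u⁻¹ w⁻¹ := by
  constructor
  · intro h
    induction h with
    | refl => exact le_refl' _
    | tail _ hbc ih => exact le_trans' ih (edge_le ((step_iff _ _).1 hbc))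
  · intro h
    have hc := chain_of_le h
    have key : ∀ a b : Perm (Fin n), Relation.ReflTransGen cov a b → BLe a⁻¹ b⁻¹ := by
      intro a b hab
      induction hab with
      | refl => exact Relation.ReflTransGen.refl
      | tail _ hbc ih =>
        exact Relation.ReflTransGen.tail ih ((step_iff _ _).2 (by simpa using hbc.1))
    simpa using key _ _ hc

open Classical in
lemma card_swaps {x v : Perm (Fin n)} (h : le x v) :
    (univ.filter fun t : Perm (Fin n) => t.IsSwap ∧ le (x * t) v).card =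
      (up x v).card + inv x := by
  have h1 : (univ.filter fun p : Fin n × Fin n => p.1 < p.2 ∧ le (x * swap p.1 p.2) v).card =
      (univ.filter fun t : Perm (Fin n) => t.IsSwap ∧ le (x * t) v).card := by
    apply Finset.card_bij (fun p _ => swap p.1 p.2)
    · intro p hp
      simp only [mem_filter, mem_univ, true_and] at hp ⊢
      exact ⟨⟨p.1, p.2, ne_of_lt hp.1, rfl⟩, hp.2⟩
    · intro p hp q hq hpq
      simp only [mem_filter, mem_univ, true_and] at hp hq
      have := swap_inj hp.1 hq.1 hpq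
      exact Prod.ext this.1 this.2
    · intro t ht
      simp only [mem_filter, mem_univ, true_and] at ht
      obtain ⟨⟨i, j, hij, rfl⟩, ht⟩ := ht
      rcases lt_or_gt_of_ne hij with h2 | h2
      · exact ⟨(i, j), by simp only [mem_filter, mem_univ, true_and]; exact ⟨h2, ht⟩, rfl⟩
      · refine ⟨(j, i), ?_, swap_comm _ _⟩
        simp only [mem_filter, mem_univ, true_and]
        exact ⟨h2, by rwa [swap_comm]⟩
  rw [← h1, ← card_up]
  unfold upPairs inv
  rw [Finset.card_filter, Finset.card_filter, Finset.card_filter, ← Finset.sum_add_distrib]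
  apply Finset.sum_congr rfl
  rintro ⟨p, q⟩ -
  simp only
  by_cases hpq : p < q
  · rcases lt_trichotomy (x p) (x q) with hx | hx | hx
    · have hx' : ¬ x q < x p := not_lt.2 (le_of_lt hx)
      simp [hpq, hx, hx']
    · exact absurd (x.injective hx) (ne_of_lt hpq)
    · have hx' : ¬ x p < x q := not_lt.2 (le_of_lt hx)
      have hle : le (x * swap p q) v := le_trans' (swap_of_gt x hpq hx).1 h
      simp [hpq, hx, hx', hle]
  · simp [hpq]

lemma sm_of_isSmooth {u w : Perm (Fin n)} (h : BLe u w) (hs : IsSmooth u w) : Sm u⁻¹ w⁻¹ := by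
  classical
  unfold Sm
  rw [← card_swaps ((ble_iff u w).1 h), ← len_eq, ← hs]
  congr 1
  apply Finset.filter_congr
  intro t _
  constructor
  · rintro ⟨⟨i, j, hij, rfl⟩, h2⟩
    refine ⟨⟨i, j, hij, rfl⟩, ?_⟩
    rw [ble_iff]
    simpa using h2
  · rintro ⟨⟨i, j, hij, rfl⟩, h2⟩
    refine ⟨⟨i, j, hij, rfl⟩, ?_⟩
    rw [ble_iff] at h2
    simpa using h2

lemma exists_simple {i j : Fin (n + 1)} (h : (j : ℕ) = (i : ℕ) + 1) :
    ∃ k : Fin n, simple k = swap i j := by
  have hi : (i : ℕ) < n := by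
    have := j.2
    omega
  refine ⟨⟨i, hi⟩, ?_⟩
  unfold simple
  congr 1
  exact Fin.ext h.symm

theorem main_left (u w : Perm (Fin (n + 1))) (huw : BLt u w) (hs : IsSmooth u w) :
    ∃ i : Fin n, BLt u (simple i * u) ∧ (¬ BLe (simple i * u) w ∨ BLt (simple i * w) w) := by
  have h1 := (ble_iff u w).1 huw.1
  have hne : u⁻¹ ≠ w⁻¹ := fun h => huw.2 (inv_injective h)
  obtain ⟨i, j, hj, hu, hor⟩ := main_right h1 hne (sm_of_isSmooth huw.1 hs)
  obtain ⟨k, hk⟩ := exists_simple hj
  have hij : i < j := by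
    show (i : ℕ) < (j : ℕ)
    omega
  have hmul : ∀ z : Perm (Fin (n + 1)), (simple k * z)⁻¹ = z⁻¹ * swap i j := by
    intro z
    rw [hk]
    simp
  refine ⟨k, ⟨?_, ?_⟩, ?_⟩
  · rw [ble_iff, hmul]
    exact le_swap _ hij hu
  · intro hc
    have h2 := inv_lt_swap _ hij hu
    rw [← hmul, ← hc] at h2
    omega
  · rcases hor with h | h
    · left
      rwa [ble_iff, hmul]
    · right
      have h2 := swap_of_gt _ hij h
      refine ⟨?_, ?_⟩
      · rw [ble_iff, hmul]
        exact h2.1
      · intro hc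
        have h3 := h2.2
        rw [← hmul, hc] at h3
        omega

end Pool.Agent.H170Z.Bruhat
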