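import Mathlib

set_option autoImplicit false

namespace Pool.Agent.H170Z.Rigid

open Equiv

variable {α : Type*} [DecidableEq α]

lemma swap_eq_of_apply {g h e f : α} (hef : e ≠ f) (H : swap g h e = f) : swap g h = swap e f := by
  by_cases h1 : e = g
  · subst h1
    rw [swap_apply_left] at H
    rw [H]
  · by_cases h2 : e = h
    · subst h2
      rw [swap_apply_right] at H
      rw [H, swap_comm]
    · rw [swap_apply_of_ne_of_ne h1 h2] at H
      exact absurd H hef

/-- the first factor only moves points moved on the other side -/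
lemma mem_left {a b c d e f g h : α} (hef : e ≠ f) (hne : swap e f ≠ swap g h)
    (H : swap a b * swap c d = swap e f * swap g h) : e = a ∨ e = b ∨ e = c ∨ e = d := by
  by_contra hc
  push Not at hc
  obtain ⟨h1, h2, h3, h4⟩ := hc
  have h5 := congrArg (fun z : Perm α => z e) H
  simp only [Perm.coe_mul, Function.comp_apply] at h5
  rw [swap_apply_of_ne_of_ne h3 h4, swap_apply_of_ne_of_ne h1 h2] at h5
  have h6 : swap g h e = f := by
    have := congrArg (swap e f) h5
    rw [swap_apply_self, swap_apply_left] at this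
    exact this.symm
  exact hne (swap_eq_of_apply hef h6).symm

lemma mem_right {a b c d e f g h : α} (hgh : g ≠ h) (hne : swap e f ≠ swap g h)
    (H : swap a b * swap c d = swap e f * swap g h) : g = a ∨ g = b ∨ g = c ∨ g = d := by
  have H2 : swap c d * swap a b = swap g h * swap e f := by
    have := congrArg (fun z : Perm α => z⁻¹) H
    simpa using this
  rcases mem_left hgh (Ne.symm hne) H2 with h | h | h | h <;> simp [h]

lemma swap_eq_of_mem {a b g h : α} (hab : a ≠ b) (h1 : a = g ∨ a = h) (h2 : b = g ∨ b = h) :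
    swap g h = swap a b := by
  rcases h1 with rfl | rfl <;> rcases h2 with rfl | rfl
  · exact absurd rfl hab
  · rfl
  · exact swap_comm _ _
  · exact absurd rfl hab

lemma cn_disj {a b c d : α} (hab : a ≠ b) (hac : a ≠ c) (had : a ≠ d) (hbc : b ≠ c) (hbd : b ≠ d)
    {Y : Perm α} (hY : Y ≠ 1) (h1 : (swap a b * Y).IsSwap) (h2 : (swap c d * Y).IsSwap) :
    Y = swap c d * swap a b := by
  obtain ⟨e, f, hef, h1⟩ := h1
  obtain ⟨g, h, hgh, h2⟩ := h2
  have e1 : Y = swap a b * swap e f := by rw [← h1, ← mul_assoc, swap_mul_self, one_mul]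
  have e2 : Y = swap c d * swap g h := by rw [← h2, ← mul_assoc, swap_mul_self, one_mul]
  have hne : swap a b ≠ swap e f := by
    intro hc
    rw [← hc, swap_mul_self] at e1
    exact hY e1
  have H : swap c d * swap g h = swap a b * swap e f := e2.symm.trans e1
  have ha := mem_left hab hne H
  have hb : b = c ∨ b = d ∨ b = g ∨ b = h := by
    rw [swap_comm a b] at H hne
    exact mem_left hab.symm hne H
  have : swap g h = swap a b := by
    apply swap_eq_of_mem hab
    · tauto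
    · tauto
  rw [e2, this]

lemma cn_three {a b c : α} (hab : a ≠ b) (hac : a ≠ c) (hbc : b ≠ c)
    {Y : Perm α} (hY : Y ≠ 1) (h1 : (swap a b * Y).IsSwap) (h2 : (swap b c * Y).IsSwap) :
    Y = swap b c * swap a b ∨ Y = swap b c * swap a c := by
  obtain ⟨e, f, hef, h1⟩ := h1
  obtain ⟨g, h, hgh, h2⟩ := h2
  have e1 : Y = swap a b * swap e f := by rw [← h1, ← mul_assoc, swap_mul_self, one_mul]
  have e2 : Y = swap b c * swap g h := by rw [← h2, ← mul_assoc, swap_mul_self, one_mul]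
  have hne : swap a b ≠ swap e f := by
    intro hc
    rw [← hc, swap_mul_self] at e1
    exact hY e1
  have hne2 : swap b c ≠ swap g h := by
    intro hc
    rw [← hc, swap_mul_self] at e2
    exact hY e2
  have H : swap b c * swap g h = swap a b * swap e f := e2.symm.trans e1
  have ha := mem_left hab hne H
  have hc : c = a ∨ c = b ∨ c = e ∨ c = f := by
    have H' := H.symm
    rw [swap_comm b c] at H' hne2
    exact mem_left hbc.symm hne2 H'
  obtain ⟨x, hax, hx⟩ : ∃ x, a ≠ x ∧ swap g h = swap a x := by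
    rcases ha with ha | ha | ha | ha
    · exact absurd ha hab
    · exact absurd ha hac
    · subst ha
      exact ⟨h, hgh, rfl⟩
    · subst ha
      exact ⟨g, hgh.symm, swap_comm _ _⟩
  obtain ⟨y, hcy, hy⟩ : ∃ y, c ≠ y ∧ swap e f = swap c y := by
    rcases hc with hc | hc | hc | hc
    · exact absurd hc.symm hac
    · exact absurd hc.symm hbc
    · subst hc
      exact ⟨f, hef, rfl⟩
    · subst hc
      exact ⟨e, hef.symm, swap_comm _ _⟩
  rw [hx] at e2 H hne2
  rw [hy] at H
  by_cases hxb : x = b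
  · left
    rw [e2, hxb]
  by_cases hxc : x = c
  · right
    rw [e2, hxc]
  exfalso
  have hx2 : x = a ∨ x = b ∨ x = c ∨ x = y := by
    have H' := H.symm
    rw [swap_comm a x] at H' hne2
    exact mem_right hax.symm hne2 H'
  have hxy : x = y := by
    rcases hx2 with h | h | h | h
    · exact absurd h.symm hax
    · exact absurd h hxb
    · exact absurd h hxc
    · exact h
  subst hxy
  have h5 := congrArg (fun z : Perm α => z x) H
  simp only [Perm.coe_mul, Function.comp_apply, swap_apply_right] at h5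
  rw [swap_apply_of_ne_of_ne hab hac, swap_apply_of_ne_of_ne hac.symm hbc.symm] at h5
  exact hac h5

/-- two transpositions with two nontrivial common neighbours -/
lemma cn {T2 T3 Y1 Y2 : Perm α} (h2 : T2.IsSwap) (h3 : T3.IsSwap) (hne : T2 ≠ T3)
    (hY1 : Y1 ≠ 1) (hY2 : Y2 ≠ 1) (hY : Y1 ≠ Y2)
    (a1 : (T2 * Y1).IsSwap) (a2 : (T3 * Y1).IsSwap) (b1 : (T2 * Y2).IsSwap)
    (b2 : (T3 * Y2).IsSwap) :
    ∃ a b c : α, a ≠ b ∧ a ≠ c ∧ b ≠ c ∧ T2 = swap a b ∧ T3 = swap b c ∧
      ((Y1 = swap b c * swap a b ∧ Y2 = swap b c * swap a c) ∨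
        (Y1 = swap b c * swap a c ∧ Y2 = swap b c * swap a b)) := by
  have key : ∀ a b c : α, a ≠ b → b ≠ c → T2 = swap a b → T3 = swap b c →
      ∃ a b c : α, a ≠ b ∧ a ≠ c ∧ b ≠ c ∧ T2 = swap a b ∧ T3 = swap b c ∧
      ((Y1 = swap b c * swap a b ∧ Y2 = swap b c * swap a c) ∨
        (Y1 = swap b c * swap a c ∧ Y2 = swap b c * swap a b)) := by
    intro a b c hab hbc e2 e3
    have hac : a ≠ c := by
      rintro rfl
      exact hne (by rw [e2, e3, swap_comm])
    refine ⟨a, b, c, hab, hac, hbc, e2, e3, ?_⟩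
    rw [e2] at a1 b1
    rw [e3] at a2 b2
    rcases cn_three hab hac hbc hY1 a1 a2 with p | p <;>
      rcases cn_three hab hac hbc hY2 b1 b2 with q | q
    · exact absurd (p.trans q.symm) hY
    · exact Or.inl ⟨p, q⟩
    · exact Or.inr ⟨p, q⟩
    · exact absurd (p.trans q.symm) hY
  obtain ⟨a, b, hab, e2⟩ := h2
  obtain ⟨c, d, hcd, e3⟩ := h3
  by_cases hac : a = c
  · subst hac
    exact key b a d hab.symm hcd (by rw [e2, swap_comm]) e3
  by_cases had : a = d
  · subst had
    exact key b a c hab.symm hcd.symm (by rw [e2, swap_comm]) (by rw [e3, swap_comm])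
  by_cases hbc : b = c
  · subst hbc
    exact key a b d hab hcd e2 e3
  by_cases hbd : b = d
  · subst hbd
    exact key a b c hab hcd.symm e2 (by rw [e3, swap_comm])
  exfalso
  rw [e2] at a1 b1
  rw [e3] at a2 b2
  exact hY ((cn_disj hab hac had hbc hbd hY1 a1 a2).trans
    (cn_disj hab hac had hbc hbd hY2 b1 b2).symm)

section
variable {a b c : α} (hab : a ≠ b) (hac : a ≠ c) (hbc : b ≠ c)
include hab hac hbc

lemma i1 : swap a b * (swap b c * swap a b) = swap a c := by
  ext z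
  simp only [Perm.coe_mul, Function.comp_apply, swap_apply_def]
  split_ifs <;> simp_all

lemma i2 : swap a b * (swap b c * swap a c) = swap b c := by
  ext z
  simp only [Perm.coe_mul, Function.comp_apply, swap_apply_def]
  split_ifs <;> simp_all

lemma i3 : swap a c * (swap b c * swap a b) = swap b c := by
  ext z
  simp only [Perm.coe_mul, Function.comp_apply, swap_apply_def]
  split_ifs <;> simp_all

lemma i4 : swap a c * (swap b c * swap a c) = swap a b := by
  ext z
  simp only [Perm.coe_mul, Function.comp_apply, swap_apply_def]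
  split_ifs <;> simp_all

lemma third {e f x y : α} (hef : e ≠ f) (he : e = a ∨ e = b ∨ e = c) (hf : f = a ∨ f = b ∨ f = c)
    (hxy : (x = a ∧ y = b) ∨ (x = a ∧ y = c)) :
    (swap e f * (swap b c * swap x y)).IsSwap := by
  have h0 : swap e f = swap a b ∨ swap e f = swap a c ∨ swap e f = swap b c := by
    rcases he with rfl | rfl | rfl <;> rcases hf with rfl | rfl | rfl
    all_goals first
      | exact absurd rfl hef
      | simp [swap_comm]
  rcases h0 with h0 | h0 | h0 <;> rcases hxy with ⟨rfl, rfl⟩ | ⟨rfl, rfl⟩ <;> rw [h0]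
  · rw [i1 hab hac hbc]; exact ⟨_, _, hac, rfl⟩
  · rw [i2 hab hac hbc]; exact ⟨_, _, hbc, rfl⟩
  · rw [i3 hab hac hbc]; exact ⟨_, _, hbc, rfl⟩
  · rw [i4 hab hac hbc]; exact ⟨_, _, hab, rfl⟩
  · rw [← mul_assoc, swap_mul_self, one_mul]; exact ⟨_, _, hab, rfl⟩
  · rw [← mul_assoc, swap_mul_self, one_mul]; exact ⟨_, _, hac, rfl⟩

end

/-- two permutations differ by a transposition -/
def Adj (p q : Perm α) : Prop := (p⁻¹ * q).IsSwap

lemma isSwap_inv {t : Perm α} (h : t.IsSwap) : t⁻¹ = t := by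
  obtain ⟨a, b, -, rfl⟩ := h
  simp

lemma Adj.symm {p q : Perm α} (h : Adj p q) : Adj q p := by
  unfold Adj at h ⊢
  have : q⁻¹ * p = (p⁻¹ * q)⁻¹ := by simp
  rw [this, isSwap_inv h]
  exact h

lemma adj_trans (r : Perm α) {p q : Perm α} (h1 : Adj r p) (h : Adj p q) :
    ((r⁻¹ * p) * (r⁻¹ * q)).IsSwap := by
  have : (r⁻¹ * p) * (r⁻¹ * q) = p⁻¹ * q := by
    rw [← isSwap_inv h1]
    simp [mul_assoc]
  rw [this]
  exact h

lemma ne_one_of_ne {r p : Perm α} (h : r ≠ p) : r⁻¹ * p ≠ 1 := by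
  intro hc
  exact h (inv_mul_eq_one.1 hc)

/-- rigidity of the complete bipartite graph with one edge missing -/
lemma rigid {X A1 A2 B1 B2 Y : Perm α} (x1 : Adj X A1) (x2 : Adj X A2) (h11 : Adj A1 B1)
    (h12 : Adj A1 B2) (h21 : Adj A2 B1) (h22 : Adj A2 B2) (y1 : Adj B1 Y) (y2 : Adj B2 Y)
    (hA : A1 ≠ A2) (hB : B1 ≠ B2) (hY1 : A1 ≠ Y) (hY2 : A2 ≠ Y) : Adj X Y := by
  obtain ⟨a, b, c, hab, hac, hbc, e2, e3, hor⟩ :=
    cn (T2 := A1⁻¹ * B1) (T3 := A1⁻¹ * B2) (Y1 := A1⁻¹ * A2) (Y2 := A1⁻¹ * Y) h11 h12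
      (fun h => hB (mul_left_cancel h)) (ne_one_of_ne hA) (ne_one_of_ne hY1)
      (fun h => hY2 (mul_left_cancel h)) (adj_trans A1 h11 h21.symm) (adj_trans A1 h12 h22.symm)
      (adj_trans A1 h11 y1) (adj_trans A1 h12 y2)
  have t1 := adj_trans A1 x1.symm x2
  obtain ⟨e, f, hef, he⟩ := (x1.symm : (A1⁻¹ * X).IsSwap)
  obtain ⟨g, h, hgh, hg⟩ := t1
  rw [he] at hg
  have e4 : A1⁻¹ * A2 = swap e f * swap g h := by rw [← hg, ← mul_assoc, swap_mul_self, one_mul]
  have hne : swap e f ≠ swap g h := by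
    intro hc
    rw [← hc, swap_mul_self] at e4
    exact ne_one_of_ne hA e4
  have e5 : X⁻¹ * Y = swap e f * (A1⁻¹ * Y) := by
    rw [← swap_inv, ← he]
    simp [mul_assoc]
  have hne' : swap f e ≠ swap g h := by rwa [swap_comm]
  unfold Adj
  rw [e5]
  rcases hor with ⟨p, q⟩ | ⟨p, q⟩
  · rw [q]
    have H := p.symm.trans e4
    have m1 := mem_left hef hne H
    rw [swap_comm e f] at H
    have m2 := mem_left hef.symm hne' H
    exact third hab hac hbc hef (by tauto) (by tauto) (Or.inr ⟨rfl, rfl⟩)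
  · rw [q]
    have H := p.symm.trans e4
    have m1 := mem_left hef hne H
    rw [swap_comm e f] at H
    have m2 := mem_left hef.symm hne' H
    exact third hab hac hbc hef (by tauto) (by tauto) (Or.inl ⟨rfl, rfl⟩)

/-- three common neighbours come from the three transpositions of a triple -/
lemma three {x b y1 y2 y3 : Perm α} (hxb : x ≠ b) (h12 : y1 ≠ y2) (h13 : y1 ≠ y3) (h23 : y2 ≠ y3)
    (x1 : Adj x y1) (x2 : Adj x y2) (x3 : Adj x y3) (b1 : Adj b y1) (b2 : Adj b y2)
    (b3 : Adj b y3) :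
    ∃ p q r : α, p ≠ q ∧ p ≠ r ∧ q ≠ r ∧ y1 = x * swap p q ∧
      ((y2 = x * swap p r ∧ y3 = x * swap q r) ∨ (y3 = x * swap p r ∧ y2 = x * swap q r)) := by
  obtain ⟨p, q, r, hpq, hpr, hqr, e2, e3, hor⟩ :=
    cn (T2 := y1⁻¹ * x) (T3 := y1⁻¹ * b) (Y1 := y1⁻¹ * y2) (Y2 := y1⁻¹ * y3) x1.symm b1.symm
      (fun h => hxb (mul_left_cancel h)) (ne_one_of_ne h12) (ne_one_of_ne h13)
      (fun h => h23 (mul_left_cancel h)) (adj_trans y1 x1.symm x2) (adj_trans y1 b1.symm b2)
      (adj_trans y1 x1.symm x3) (adj_trans y1 b1.symm b3)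
  have e1 : y1 = x * swap p q := by
    rw [← swap_inv, ← e2]
    simp
  have k : ∀ (y : Perm α) (t : Perm α), y1⁻¹ * y = t → y = x * (swap p q * t) := by
    intro y t h
    rw [← h, ← mul_assoc, ← e1]
    simp
  refine ⟨p, q, r, hpq, hpr, hqr, e1, ?_⟩
  rcases hor with ⟨u, v⟩ | ⟨u, v⟩
  · left
    exact ⟨by rw [k _ _ u, i1 hpq hpr hqr], by rw [k _ _ v, i2 hpq hpr hqr]⟩
  · right
    exact ⟨by rw [k _ _ v, i1 hpq hpr hqr], by rw [k _ _ u, i2 hpq hpr hqr]⟩

end Pool.Agent.H170Z.Rigid
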