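import Mathlib
import Pool.Agent.H170Z.Bruhat.Defs

set_option autoImplicit false

namespace Pool.Agent.H170Z.BruhatA

open Equiv

variable {N : ℕ}

/-- The cover relation of the Bruhat order: `x < y` with nothing strictly between. -/
def BCov (x y : Perm (Fin N)) : Prop := BLt x y ∧ ¬ ∃ z, BLt x z ∧ BLt z y

/-- `M` restricts to a special matching of the Bruhat interval `[u, v]`: an involution of the
interval joining each element to a cover neighbour, with `M x < M y` whenever `y` covers `x` in
the interval and `M x ≠ y`. -/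
def IsSpecialMatching (u v : Perm (Fin N)) (M : Perm (Fin N) → Perm (Fin N)) : Prop :=
  (∀ x, BLe u x → BLe x v →
    BLe u (M x) ∧ BLe (M x) v ∧ M (M x) = x ∧ (BCov x (M x) ∨ BCov (M x) x)) ∧
  (∀ x y, BLe u x → BLe x v → BLe u y → BLe y v → BCov x y → M x ≠ y → BLt (M x) (M y))

/-- `[u, w]` is a zircon: every `[u, v]` with `u < v ≤ w` has a special matching. -/
def IsZircon (u w : Perm (Fin N)) : Prop :=
  ∀ v, BLt u v → BLe v w → ∃ M, IsSpecialMatching u v M

end Pool.Agent.H170Z.BruhatA
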