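import Mathlib
import Pool.Agent.H170Z.Bruhat.Core
import Pool.Agent.H170Z.Bruhat.Rigid

set_option autoImplicit false

namespace Pool.Agent.H170Z.Bruhat

open Equiv Finset
open Pool.Agent.Results.MP_0fb7f5_co.BooleanIntervals
open Pool.Agent.H170Z.Rigid

variable {n : ℕ}

lemma adj_of_edge {x y : Perm (Fin n)} (h : edge x y) : Adj x y := by
  obtain ⟨i, j, hij, -, rfl⟩ := h
  exact ⟨i, j, ne_of_lt hij, by simp⟩

lemma edge_of_adj {x y : Perm (Fin n)} (h : Adj x y) (hi : inv x < inv y) : edge x y := by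
  obtain ⟨i, j, -, h⟩ := h
  refine (bruhat_step_iff x y).1 ⟨i, j, ?_, hi⟩
  rw [← h]
  simp

lemma edge_odd {x y : Perm (Fin n)} (h : edge x y) : ∃ k, inv y = inv x + 1 + 2 * k := by
  obtain ⟨i, j, hij, hx, rfl⟩ := h
  exact ⟨_, inv_swap x hij hx⟩

lemma lt_of_up {x : Perm (Fin n)} {i j : Fin n} (hij : i < j) (h : inv x < inv (x * swap i j)) :
    x i < x j := by
  by_contra hx
  have hx' : x j < x i :=
    lt_of_le_of_ne (not_lt.1 hx) (fun e => (ne_of_lt hij) (x.injective e).symm)
  have := (swap_of_gt x hij hx').2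
  omega

lemma not_three_sorted (x : Perm (Fin n)) {i j k : Fin n} (hij : i < j) (hjk : j < k)
    (h1 : inv (x * swap i j) = inv x + 1) (h2 : inv (x * swap j k) = inv x + 1)
    (h3 : inv (x * swap i k) = inv x + 1) : False := by
  have a1 := lt_of_up hij (x := x) (by omega)
  have a2 := lt_of_up hjk (x := x) (by omega)
  have h0 := inner_eq_zero (hij.trans hjk) (a1.trans a2) h3
  unfold Results.MP_0fb7f5_co.BooleanIntervals.inner at h0
  rw [Finset.card_eq_zero, Finset.filter_eq_empty_iff] at h0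
  exact h0 (mem_univ j) ⟨hij, hjk, a1, a2⟩

lemma not_three (x : Perm (Fin n)) {p q r : Fin n} (hpq : p ≠ q) (hpr : p ≠ r) (hqr : q ≠ r)
    (h1 : inv (x * swap p q) = inv x + 1) (h2 : inv (x * swap p r) = inv x + 1)
    (h3 : inv (x * swap q r) = inv x + 1) : False := by
  have h1' := h1
  have h2' := h2
  have h3' := h3
  rw [swap_comm] at h1' h2' h3'
  rcases lt_or_gt_of_ne hpq with a | a <;> rcases lt_or_gt_of_ne hpr with b | b <;>
    rcases lt_or_gt_of_ne hqr with c | c
  · exact not_three_sorted x a c h1 h3 h2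
  · exact not_three_sorted x b c h2 h3' h1
  · exact absurd (a.trans c) (not_lt.2 (le_of_lt b))
  · exact not_three_sorted x b a h2' h1 h3'
  · exact not_three_sorted x a b h1' h2 h3
  · exact absurd (b.trans c) (not_lt.2 (le_of_lt a))
  · exact not_three_sorted x c b h3 h2' h1'
  · exact not_three_sorted x c a h3' h1' h2'

/-- an interval of length two has at most two middle elements -/
lemma diamond {x b y1 y2 y3 : Perm (Fin n)} (hb : inv b = inv x + 2) (h12 : y1 ≠ y2)
    (h13 : y1 ≠ y3) (h23 : y2 ≠ y3) (c1 : cov x y1) (c2 : cov x y2) (c3 : cov x y3)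
    (l1 : le y1 b) (l2 : le y2 b) (l3 : le y3 b) : False := by
  have d1 := cov_of_le_inv l1 (by have := c1.2; omega)
  have d2 := cov_of_le_inv l2 (by have := c2.2; omega)
  have d3 := cov_of_le_inv l3 (by have := c3.2; omega)
  have hxb : x ≠ b := by
    rintro rfl
    omega
  obtain ⟨p, q, r, hpq, hpr, hqr, e1, hor⟩ := three hxb h12 h13 h23 (adj_of_edge c1.1)
    (adj_of_edge c2.1) (adj_of_edge c3.1) (adj_of_edge d1.1).symm (adj_of_edge d2.1).symm
    (adj_of_edge d3.1).symm
  rcases hor with ⟨e2, e3⟩ | ⟨e2, e3⟩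
  · exact not_three x hpq hpr hqr (e1 ▸ c1.2) (e2 ▸ c2.2) (e3 ▸ c3.2)
  · exact not_three x hpq hpr hqr (e1 ▸ c1.2) (e2 ▸ c3.2) (e3 ▸ c2.2)

/-- a long edge joins the bottom and the top of a hexagon -/
lemma hexagon {x y : Perm (Fin n)} (h : edge x y) (hl : inv y ≠ inv x + 1) :
    ∃ a1 a2 b1 b2 : Perm (Fin n), edge x a1 ∧ edge x a2 ∧ edge a1 b1 ∧ edge a1 b2 ∧ edge a2 b1 ∧
      edge a2 b2 ∧ edge b1 y ∧ edge b2 y ∧ a1 ≠ a2 ∧ b1 ≠ b2 := by
  obtain ⟨i, k, hik, hx, rfl⟩ := h
  have h0 : inner x i k ≠ 0 := by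
    intro h0
    rw [inv_swap x hik hx, h0] at hl
    omega
  unfold Results.MP_0fb7f5_co.BooleanIntervals.inner at h0
  obtain ⟨j, hj⟩ := Finset.card_ne_zero.1 h0
  simp only [mem_filter, mem_univ, true_and] at hj
  obtain ⟨hij, hjk, h1, h2⟩ := hj
  have nij : i ≠ j := ne_of_lt hij
  have njk : j ≠ k := ne_of_lt hjk
  have nik : i ≠ k := ne_of_lt hik
  have s1 : swap i j k = k := swap_apply_of_ne_of_ne nik.symm njk.symm
  have s2 : swap j k i = i := swap_apply_of_ne_of_ne nij nik
  have s3 : swap i k j = j := swap_apply_of_ne_of_ne nij.symm njk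
  refine ⟨x * swap i j, x * swap j k, x * swap i j * swap j k, x * swap i j * swap i k,
    ⟨i, j, hij, h1, rfl⟩, ⟨j, k, hjk, h2, rfl⟩, ⟨j, k, hjk, ?_, rfl⟩, ⟨i, k, hik, ?_, rfl⟩,
    ⟨i, k, hik, ?_, ?_⟩, ⟨i, j, hij, ?_, ?_⟩, ⟨i, j, hij, ?_, ?_⟩, ⟨j, k, hjk, ?_, ?_⟩, ?_, ?_⟩
  · simpa [s1] using hx
  · simpa [s1] using h2
  · simpa [s2] using h1
  · rw [mul_assoc, mul_assoc]
    congr 1
    ext z
    simp only [Perm.coe_mul, Function.comp_apply, swap_apply_def]
    split_ifs <;> simp_all
  · simpa [s2] using hx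
  · rw [mul_assoc, mul_assoc]
    congr 1
    ext z
    simp only [Perm.coe_mul, Function.comp_apply, swap_apply_def]
    split_ifs <;> simp_all
  · simpa [s1, s2] using h2
  · rw [mul_assoc, mul_assoc]
    congr 1
    ext z
    simp only [Perm.coe_mul, Function.comp_apply, swap_apply_def]
    split_ifs <;> simp_all
  · simpa [s1, s3] using h1
  · rw [mul_assoc, mul_assoc]
    congr 1
    ext z
    simp only [Perm.coe_mul, Function.comp_apply, swap_apply_def]
    split_ifs <;> simp_all
  · intro hc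
    have := swap_inj hij hjk (mul_left_cancel hc)
    exact nij this.1
  · intro hc
    have := swap_inj hjk hik (mul_left_cancel hc)
    exact nij this.1.symm

/-- special matching of the interval `[u, v]` -/
structure SM (u v : Perm (Fin n)) (M : Perm (Fin n) → Perm (Fin n)) : Prop where
  lo : ∀ x, le u x → le x v → le u (M x)
  hi : ∀ x, le u x → le x v → le (M x) v
  invol : ∀ x, le u x → le x v → M (M x) = x
  cv : ∀ x, le u x → le x v → cov x (M x) ∨ cov (M x) x
  sp : ∀ x y, le u x → le y v → cov x y → M x ≠ y → le (M x) (M y)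

variable {u v : Perm (Fin n)} {M : Perm (Fin n) → Perm (Fin n)}

lemma SM.inj (h : SM u v M) {x y : Perm (Fin n)} (x1 : le u x) (x2 : le x v) (y1 : le u y)
    (y2 : le y v) (e : M x = M y) : x = y := by
  rw [← h.invol x x1 x2, e, h.invol y y1 y2]

lemma SM.len (h : SM u v M) {x : Perm (Fin n)} (x1 : le u x) (x2 : le x v) :
    inv (M x) = inv x + 1 ∨ inv x = inv (M x) + 1 := by
  rcases h.cv x x1 x2 with c | c
  · exact Or.inl c.2
  · exact Or.inr c.2

lemma SM.adj_cov (h : SM u v M) {x y : Perm (Fin n)} (x1 : le u x) (y2 : le y v) (c : cov x y) :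
    Adj (M x) (M y) := by
  classical
  have hxy := edge_le c.1
  have x2 := le_trans' hxy y2
  have y1 := le_trans' x1 hxy
  by_cases hm : M x = y
  · have : M y = x := by rw [← hm, h.invol x x1 x2]
    rw [hm, this]
    exact (adj_of_edge c.1).symm
  have hle := h.sp x y x1 y2 c hm
  have hne : M x ≠ M y := by
    intro e
    have := h.inj x1 x2 y1 y2 e
    have := c.2
    subst_vars
    omega
  have hlt := inv_lt_of_le_ne hle hne
  have lx := h.len x1 x2
  have ly := h.len y1 y2
  have c2 := c.2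
  by_cases h1 : inv (M y) = inv (M x) + 1
  · exact adj_of_edge (cov_of_le_inv hle h1).1
  have ex : inv x = inv (M x) + 1 := by omega
  have ey : inv (M y) = inv y + 1 := by omega
  apply adj_of_edge
  by_contra hedge
  have a1 := h.lo x x1 x2
  have a2 := h.hi x x1 x2
  have b1 := h.lo y y1 y2
  have b2 := h.hi y y1 y2
  have hyb : le y (M y) := by
    rcases h.cv y y1 y2 with d | d
    · exact edge_le d.1
    · have := d.2
      omega
  have hcard : 2 ≤ ((up (M x) (M y)).erase x).card := by
    have := deodhar hle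
    have := Finset.pred_card_le_card_erase (s := up (M x) (M y)) (a := x)
    omega
  have key : ∀ z ∈ (up (M x) (M y)).erase x, le u z ∧ le z v ∧ cov x (M z) ∧ le (M z) (M y) ∧
      M z ≠ y := by
    intro z hz
    rw [Finset.mem_erase, mem_up] at hz
    obtain ⟨hzx, hz1, hz2⟩ := hz
    have z1 := le_trans' a1 (edge_le hz1)
    have z2 := le_trans' hz2 b2
    have hzi : inv z = inv (M x) + 1 := by
      obtain ⟨k, hk⟩ := edge_odd hz1
      have := inv_le_of_le hz2
      by_contra hc
      have : z = M y := eq_of_le_of_inv hz2 (by omega)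
      exact hedge (this ▸ hz1)
    have hxz : le x (M z) := by
      have := h.sp (M x) z a1 z2 ⟨hz1, hzi⟩ (by rw [h.invol x x1 x2]; exact hzx.symm)
      rwa [h.invol x x1 x2] at this
    have hne2 : x ≠ M z := by
      intro e
      have : M x = z := by rw [e, h.invol z z1 z2]
      rw [this] at hzi
      omega
    have hl2 := inv_lt_of_le_ne hxz hne2
    have lz := h.len z1 z2
    have hMz : inv (M z) = inv x + 1 := by omega
    refine ⟨z1, z2, cov_of_le_inv hxz hMz, ?_, ?_⟩
    · obtain ⟨d, hd1, hd2⟩ := exists_cov hz2 (by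
        rintro rfl
        omega)
      have d1 := le_trans' z1 (edge_le hd1.1)
      have d2 := le_trans' hd2 b2
      by_cases e1 : M z = d
      · rwa [e1]
      have s1 := h.sp z d z1 d2 hd1 e1
      by_cases e2 : M d = M y
      · rwa [e2] at s1
      have s2 := h.sp d (M y) d1 b2 (cov_of_le_inv hd2 (by have := hd1.2; omega)) e2
      rw [h.invol y y1 y2] at s2
      exact le_trans' s1 (le_trans' s2 hyb)
    · intro e
      have : M y = z := by rw [← e, h.invol z z1 z2]
      rw [this] at ey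
      omega
  obtain ⟨z, hz, z', hz', hzz⟩ := Finset.one_lt_card.1 (by omega : 1 < ((up (M x) (M y)).erase x).card)
  obtain ⟨p1, p2, p3, p4, p5⟩ := key z hz
  obtain ⟨q1, q2, q3, q4, q5⟩ := key z' hz'
  exact diamond (x := x) (b := M y) (y1 := y) (y2 := M z) (y3 := M z') (by omega) p5.symm q5.symm
    (fun e => hzz (h.inj p1 p2 q1 q2 e)) c p3 q3 hyb p4 q4

lemma SM.adj_edge (h : SM u v M) : ∀ (k : ℕ) (x y : Perm (Fin n)), le u x → le y v → edge x y →
    inv y ≤ inv x + k → Adj (M x) (M y) := by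
  intro k
  induction k with
  | zero =>
    intro x y _ _ e hk
    have := edge_inv e
    omega
  | succ k ih =>
    intro x y x1 y2 e hk
    by_cases hl : inv y = inv x + 1
    · exact h.adj_cov x1 y2 ⟨e, hl⟩
    obtain ⟨a1, a2, b1, b2, e1, e2, e11, e12, e21, e22, f1, f2, ha, hb⟩ := hexagon e hl
    have i1 := edge_inv e1
    have i2 := edge_inv e2
    have i11 := edge_inv e11
    have i12 := edge_inv e12
    have i21 := edge_inv e21
    have i22 := edge_inv e22
    have j1 := edge_inv f1
    have j2 := edge_inv f2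
    have ua1 := le_trans' x1 (edge_le e1)
    have ua2 := le_trans' x1 (edge_le e2)
    have ub1 := le_trans' ua1 (edge_le e11)
    have ub2 := le_trans' ua1 (edge_le e12)
    have uy := le_trans' ub1 (edge_le f1)
    have vb1 := le_trans' (edge_le f1) y2
    have vb2 := le_trans' (edge_le f2) y2
    have va1 := le_trans' (edge_le e11) vb1
    have va2 := le_trans' (edge_le e21) vb1
    refine rigid (ih x a1 x1 va1 e1 (by omega)) (ih x a2 x1 va2 e2 (by omega))
      (ih a1 b1 ua1 vb1 e11 (by omega)) (ih a1 b2 ua1 vb2 e12 (by omega))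
      (ih a2 b1 ua2 vb1 e21 (by omega)) (ih a2 b2 ua2 vb2 e22 (by omega))
      (ih b1 y ub1 y2 f1 (by omega)) (ih b2 y ub2 y2 f2 (by omega))
      (fun c => ha (h.inj ua1 va1 ua2 va2 c)) (fun c => hb (h.inj ub1 vb1 ub2 vb2 c)) ?_ ?_
    · intro c
      have := h.inj ua1 va1 uy y2 c
      subst this
      omega
    · intro c
      have := h.inj ua2 va2 uy y2 c
      subst this
      omega

lemma mem_dn {x y z : Perm (Fin n)} : z ∈ dn x y ↔ edge z y ∧ le x z := by simp [dn]

lemma SM.dn_step (h : SM u v M) (huv : le u v) :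
    cov (M v) v ∧ le u (M v) ∧ (dn u v).card ≤ (dn u (M v)).card + 1 := by
  classical
  have v2 := le_refl' v
  have hc : cov (M v) v := by
    rcases h.cv v huv v2 with c | c
    · have := inv_le_of_le (h.hi v huv v2)
      have := c.2
      omega
    · exact c
  refine ⟨hc, h.lo v huv v2, ?_⟩
  have h1 : ((dn u v).erase (M v)).card ≤ (dn u (M v)).card := by
    apply Finset.card_le_card_of_injOn M
    · intro z hz
      rw [Finset.mem_coe, Finset.mem_erase, mem_dn] at hz
      obtain ⟨hzv, e, z1⟩ := hz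
      have z2 := edge_le e
      rw [Finset.mem_coe, mem_dn]
      refine ⟨edge_of_adj (h.adj_edge (inv v) z v z1 v2 e (by omega)) ?_, h.lo z z1 z2⟩
      obtain ⟨k, hk⟩ := edge_odd e
      have lz := h.len z1 z2
      have c2 := hc.2
      by_cases hk0 : k = 0
      · have hle := h.sp z v z1 v2 ⟨e, by omega⟩ (by
          intro c
          apply hzv
          rw [← c, h.invol z z1 z2])
        apply inv_lt_of_le_ne hle
        intro c
        have := h.inj z1 z2 huv v2 c
        subst this
        omega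
      · omega
    · intro z hz z' hz' c
      rw [Finset.mem_coe, Finset.mem_erase, mem_dn] at hz hz'
      exact h.inj hz.2.2 (edge_le hz.2.1) hz'.2.2 (edge_le hz'.2.1) c
  have := Finset.pred_card_le_card_erase (s := dn u v) (a := M v)
  omega

lemma dn_le {u w : Perm (Fin n)}
    (hz : ∀ v, le u v → u ≠ v → le v w → ∃ M, SM u v M) :
    ∀ (k : ℕ) (v : Perm (Fin n)), le u v → le v w → inv v = inv u + k → (dn u v).card ≤ k := by
  intro k
  induction k with
  | zero =>
    intro v huv _ hk
    rw [Nat.le_zero, Finset.card_eq_zero, Finset.eq_empty_iff_forall_notMem]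
    intro z hz
    rw [mem_dn] at hz
    have := edge_inv hz.1
    have := inv_le_of_le hz.2
    omega
  | succ k ih =>
    intro v huv hvw hk
    obtain ⟨M, hM⟩ := hz v huv (by
      rintro rfl
      omega) hvw
    obtain ⟨c, l, hcard⟩ := hM.dn_step huv
    have := ih (M v) l (le_trans' (edge_le c.1) hvw) (by have := c.2; omega)
    omega

theorem zircon_right {u w : Perm (Fin n)} (huw : le u w) (hne : u ≠ w)
    (hz : ∀ v, le u v → u ≠ v → le v w → ∃ M, SM u v M) :
    ∃ i j : Fin n, (j : ℕ) = (i : ℕ) + 1 ∧ w j < w i ∧ (¬ le u (w * swap i j) ∨ u i < u j) := by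
  have h1 := inv_le_of_le huw
  have h2 := dn_le hz (inv w - inv u) w huw (le_refl' w) (by omega)
  have h3 := dual_deodhar huw
  have h4 := inv_rv u
  have h5 := inv_rv w
  have hs : Sm (rv w) (rv u) := by
    unfold Sm
    rw [← card_dn]
    omega
  obtain ⟨i, j, hij, a, hor⟩ := main_right (le_rv huw) (fun c => hne (by
    have := congrArg rv c
    rw [rv_rv, rv_rv] at this
    exact this.symm)) hs
  rw [rv_apply, rv_apply, Fin.rev_lt_rev] at a
  refine ⟨i, j, hij, a, ?_⟩
  rcases hor with b | b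
  · left
    intro c
    apply b
    have := le_rv c
    unfold rv at this ⊢
    rwa [← mul_assoc] at this
  · right
    rwa [rv_apply, rv_apply, Fin.rev_lt_rev] at b

end Pool.Agent.H170Z.Bruhat
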