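import Mathlib
import Pool.Agent.H170Z.Bruhat.Bridge
import Pool.Agent.H170Z.Bruhat.Zircon
import Pool.Agent.H170Z.Bruhat.ZDefs

set_option autoImplicit false

namespace Pool.Agent.H170Z.Bruhat

open Equiv Finset
open Pool.Agent.Results.MP_0fb7f5_co.BooleanIntervals
open Pool.Agent.H170Z.BruhatA

variable {n : ℕ}

lemma bcov_iff (x y : Perm (Fin n)) : BCov x y ↔ cov x⁻¹ y⁻¹ := by
  constructor
  · rintro ⟨⟨h1, h2⟩, h3⟩
    rw [ble_iff] at h1
    obtain ⟨z, hz, hzy⟩ := exists_cov h1 (fun c => h2 (inv_injective c))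
    by_cases e : z = y⁻¹
    · rwa [e] at hz
    · exfalso
      apply h3
      refine ⟨z⁻¹, ⟨?_, ?_⟩, ⟨?_, ?_⟩⟩
      · rw [ble_iff, inv_inv]
        exact edge_le hz.1
      · intro c
        have := hz.2
        rw [c, inv_inv] at this
        omega
      · rwa [ble_iff, inv_inv]
      · intro c
        apply e
        rw [← c, inv_inv]
  · intro h
    refine ⟨⟨(ble_iff x y).2 (edge_le h.1), ?_⟩, ?_⟩
    · intro c
      have := h.2
      rw [c] at this
      omega
    · rintro ⟨z, ⟨a1, a2⟩, ⟨b1, b2⟩⟩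
      rw [ble_iff] at a1 b1
      have := inv_lt_of_le_ne a1 (fun c => a2 (inv_injective c))
      have := inv_lt_of_le_ne b1 (fun c => b2 (inv_injective c))
      have := h.2
      omega

lemma sm_of_special {u v : Perm (Fin n)} {M : Perm (Fin n) → Perm (Fin n)}
    (h : IsSpecialMatching u v M) : SM u⁻¹ v⁻¹ (fun x => (M x⁻¹)⁻¹) := by
  have k1 : ∀ x, le u⁻¹ x → BLe u x⁻¹ := fun x hx => by rwa [ble_iff, inv_inv]
  have k2 : ∀ x, le x v⁻¹ → BLe x⁻¹ v := fun x hx => by rwa [ble_iff, inv_inv]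
  refine ⟨?_, ?_, ?_, ?_, ?_⟩
  · intro x a b
    exact (ble_iff _ _).1 (h.1 _ (k1 x a) (k2 x b)).1
  · intro x a b
    exact (ble_iff _ _).1 (h.1 _ (k1 x a) (k2 x b)).2.1
  · intro x a b
    simp only [inv_inv]
    rw [(h.1 _ (k1 x a) (k2 x b)).2.2.1, inv_inv]
  · intro x a b
    rcases (h.1 _ (k1 x a) (k2 x b)).2.2.2 with c | c
    · left
      rwa [bcov_iff, inv_inv] at c
    · right
      rwa [bcov_iff, inv_inv] at c
  · intro x y a b c d
    have hxy := edge_le c.1
    refine (ble_iff _ _).1 (h.2 _ _ (k1 x a) (k2 x (le_trans' hxy b)) (k1 y (le_trans' a hxy))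
      (k2 y b) (by rwa [bcov_iff, inv_inv, inv_inv]) ?_).1
    intro e
    apply d
    rw [e, inv_inv]

theorem zircon_left (u w : Perm (Fin (n + 1))) (huw : BLt u w) (hz : IsZircon u w) :
    ∃ i : Fin n, BLt (simple i * w) w ∧ (¬ BLe u (simple i * w) ∨ BLt u (simple i * u)) := by
  have h1 := (ble_iff u w).1 huw.1
  have hne : u⁻¹ ≠ w⁻¹ := fun h => huw.2 (inv_injective h)
  obtain ⟨i, j, hj, hw, hor⟩ := zircon_right h1 hne (by
    intro v a b c
    obtain ⟨M, hM⟩ := hz v⁻¹ ⟨by rwa [ble_iff, inv_inv], fun e => b (by rw [e, inv_inv])⟩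
      (by rwa [ble_iff, inv_inv])
    have := sm_of_special hM
    rw [inv_inv] at this
    exact ⟨_, this⟩)
  obtain ⟨k, hk⟩ := exists_simple hj
  have hij : i < j := by
    show (i : ℕ) < (j : ℕ)
    omega
  have hmul : ∀ z : Perm (Fin (n + 1)), (simple k * z)⁻¹ = z⁻¹ * swap i j := by
    intro z
    rw [hk]
    simp
  have h2 := swap_of_gt _ hij hw
  refine ⟨k, ⟨?_, ?_⟩, ?_⟩
  · rw [ble_iff, hmul]
    exact h2.1
  · intro hc
    have h3 := h2.2
    rw [← hmul, hc] at h3
    omega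
  · rcases hor with h | h
    · left
      rwa [ble_iff, hmul]
    · right
      refine ⟨?_, ?_⟩
      · rw [ble_iff, hmul]
        exact le_swap _ hij h
      · intro hc
        have h3 := inv_lt_swap _ hij h
        rw [← hmul, ← hc] at h3
        omega

end Pool.Agent.H170Z.Bruhat
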